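import Mathlib
import Pool.Agent.H.MP_ad67df_lc.Final

set_option autoImplicit false

open Filter

namespace Pool.Agent.Results.MP_ad67df_lc.DistanceOne

/-- `A` is 1-random: for every Martin-Löf test, given by a computable enumeration of pairs
`(n, σ)` such that for each `n` the open set generated by the `σ` enumerated with `n` has
measure at most `2 ^ (-n)`, the sequence `A` avoids some component of the test. -/
def MLRandom (A : ℕ → Bool) : Prop :=
  ∀ f : ℕ → Option (ℕ × List Bool), Computable f →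
    (∀ n L : ℕ, {τ : Fin L → Bool | ∃ k : ℕ, ∃ σ : List Bool,
        f k = some (n, σ) ∧ List.IsPrefix σ (List.ofFn τ)}.ncard * 2 ^ n ≤ 2 ^ L) →
    ∃ n : ℕ, ∀ k : ℕ, ∀ σ : List Bool, f k = some (n, σ) →
      List.ofFn (fun i : Fin σ.length => A i.val) ≠ σ

/-- The Turing degree of a subset of `ω`, given by its characteristic function. -/
def deg (A : ℕ → Bool) : TuringDegree :=
  toAntisymmetrization TuringReducible (fun n => Part.some (A n).toNat)

/-- `δ(A, B)`: the upper density of the symmetric difference. -/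
noncomputable def delta (A B : ℕ → Bool) : ℝ :=
  limsup (fun m : ℕ => ((((Finset.range m).filter (fun k => A k ≠ B k)).card : ℝ) / (m : ℝ))) atTop

/-- (Representatives of) the closure of `κ(d) = {[Z] : Z ≤_T d}` for `δ`. -/
def closureOf (d : TuringDegree) : Set (ℕ → Bool) :=
  {X | ∀ ε : ℝ, 0 < ε → ∃ Z : ℕ → Bool, deg Z ≤ d ∧ delta X Z < ε}

/-- The Hausdorff distance `H(d, e)` of the closures of `κ(d)` and `κ(e)`. -/
noncomputable def hausdorff (d e : TuringDegree) : ℝ :=
  max (⨆ x : closureOf d, ⨅ y : closureOf e, delta x.1 y.1)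
    (⨆ y : closureOf e, ⨅ x : closureOf d, delta y.1 x.1)

theorem deg_le {A B : ℕ → Bool} : deg A ≤ deg B ↔
    TuringReducible (fun n => Part.some (A n).toNat) (fun n => Part.some (B n).toNat) := Iff.rfl

theorem ratio_nonneg (A B : ℕ → Bool) (m : ℕ) :
    0 ≤ ((((Finset.range m).filter (fun k => A k ≠ B k)).card : ℝ) / (m : ℝ)) := by positivity

theorem ratio_le_one (A B : ℕ → Bool) (m : ℕ) :
    ((((Finset.range m).filter (fun k => A k ≠ B k)).card : ℝ) / (m : ℝ)) ≤ 1 := by
  apply div_le_one_of_le₀ _ (by positivity)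
  have := Finset.card_filter_le (Finset.range m) (fun k => A k ≠ B k)
  rw [Finset.card_range] at this
  exact_mod_cast this

theorem bdd_above (A B : ℕ → Bool) : IsBoundedUnder (· ≤ ·) atTop
    (fun m : ℕ => ((((Finset.range m).filter (fun k => A k ≠ B k)).card : ℝ) / (m : ℝ))) :=
  isBoundedUnder_of ⟨1, ratio_le_one A B⟩

theorem bdd_below (A B : ℕ → Bool) : IsBoundedUnder (· ≥ ·) atTop
    (fun m : ℕ => ((((Finset.range m).filter (fun k => A k ≠ B k)).card : ℝ) / (m : ℝ))) :=
  isBoundedUnder_of ⟨0, ratio_nonneg A B⟩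

theorem delta_nonneg (A B : ℕ → Bool) : 0 ≤ delta A B :=
  le_limsup_of_frequently_le (Frequently.of_forall (ratio_nonneg A B)) (bdd_above A B)

theorem delta_le_one (A B : ℕ → Bool) : delta A B ≤ 1 :=
  limsup_le_of_le (bdd_below A B).isCoboundedUnder_flip (Eventually.of_forall (ratio_le_one A B))

theorem delta_comm (A B : ℕ → Bool) : delta A B = delta B A := by
  unfold delta
  simp only [ne_comm]

theorem delta_self (A : ℕ → Bool) : delta A A = 0 := by
  unfold delta
  simp

theorem delta_triangle (A B C : ℕ → Bool) : delta A C ≤ delta A B + delta B C := by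
  unfold delta
  refine le_trans (limsup_le_limsup (Eventually.of_forall fun m => ?_)
    (bdd_below A C).isCoboundedUnder_flip
    (isBoundedUnder_le_add (bdd_above A B) (bdd_above B C)))
    (limsup_add_le (bdd_below A B) (bdd_above A B) (bdd_below B C).isCoboundedUnder_flip
      (bdd_above B C))
  simp only [Pi.add_apply]
  rw [← add_div]
  apply div_le_div_of_nonneg_right _ (by positivity)
  have h : (Finset.range m).filter (fun k => A k ≠ C k) ⊆
      (Finset.range m).filter (fun k => A k ≠ B k) ∪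
        (Finset.range m).filter (fun k => B k ≠ C k) := by
    intro k hk
    simp only [Finset.mem_filter, Finset.mem_union] at hk ⊢
    by_cases h : A k = B k
    · exact Or.inr ⟨hk.1, fun h2 => hk.2 (h.trans h2)⟩
    · exact Or.inl ⟨hk.1, h⟩
  exact_mod_cast (Finset.card_le_card h).trans (Finset.card_union_le _ _)

theorem mem_closureOf {d : TuringDegree} {Z : ℕ → Bool} (h : deg Z ≤ d) : Z ∈ closureOf d :=
  fun ε hε => ⟨Z, h, by rw [delta_self]; exact hε⟩

/-- **Every 1-random degree `a` has an incomparable 1-random degree `b` at Hausdorff distance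
one**; moreover `b` contains a set at distance one from every set computable from `a`. -/
theorem result (a : TuringDegree) (ha : ∃ A : ℕ → Bool, deg A = a ∧ MLRandom A) :
    ∃ b : TuringDegree, (∃ B : ℕ → Bool, deg B = b ∧ MLRandom B) ∧ ¬ a ≤ b ∧ ¬ b ≤ a ∧
      hausdorff a b = 1 ∧
      ∃ Y : ℕ → Bool, deg Y = b ∧ ∀ X : ℕ → Bool, deg X ≤ a → delta X Y = 1 := by
  obtain ⟨A, rfl, hA⟩ := ha
  obtain ⟨B, hB, h1, h2, Y, h3, h4, h5⟩ := Pool.Agent.H.MP_ad67df_lc.final hA
  have hY : deg Y = deg B := le_antisymm (deg_le.2 h3) (deg_le.2 h4)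
  have hXY : ∀ X : ℕ → Bool, deg X ≤ deg A → delta X Y = 1 := by
    intro X hX
    apply le_antisymm (delta_le_one X Y)
    refine le_of_forall_pos_le_add fun ε hε => ?_
    have := h5 X (deg_le.1 hX) ε hε
    unfold delta
    linarith
  have hcl : ∀ x ∈ closureOf (deg A), 1 ≤ delta Y x := by
    intro x hx
    refine le_of_forall_pos_le_add fun ε hε => ?_
    obtain ⟨Z, hZ, hxZ⟩ := hx ε hε
    have h6 := delta_triangle Z x Y
    rw [hXY Z hZ, delta_comm Z x, delta_comm x Y] at h6
    linarith
  refine ⟨deg B, ⟨B, rfl, hB⟩, fun h => h2 (deg_le.1 h), fun h => h1 (deg_le.1 h), ?_, Y, hY, hXY⟩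
  have hneA : Nonempty (closureOf (deg A)) := ⟨⟨A, mem_closureOf le_rfl⟩⟩
  have hneB : Nonempty (closureOf (deg B)) := ⟨⟨B, mem_closureOf le_rfl⟩⟩
  have hle : ∀ d e : TuringDegree, Nonempty (closureOf e) → ∀ x : closureOf d,
      (⨅ y : closureOf e, delta x.1 y.1) ≤ 1 := by
    intro d e he x
    exact (ciInf_le ⟨0, by rintro _ ⟨y, rfl⟩; exact delta_nonneg _ _⟩ he.some).trans
      (delta_le_one _ _)
  apply le_antisymm
  · exact max_le (ciSup_le (hle _ _ hneB)) (ciSup_le (hle _ _ hneA))
  · refine le_trans ?_ (le_max_right _ _)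
    refine le_trans ?_ (le_ciSup (f := fun y : closureOf (deg B) =>
      ⨅ x : closureOf (deg A), delta y.1 x.1)
      ⟨1, by rintro _ ⟨y, rfl⟩; exact hle _ _ hneA y⟩ ⟨Y, mem_closureOf hY.le⟩)
    exact le_ciInf fun x => hcl x.1 x.2

end Pool.Agent.Results.MP_ad67df_lc.DistanceOne
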